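import Pool.Agent.IBN.All

/-!
# MP_c07f6b_gt, Q1 for `n = 3`

For some `n` every spatial embedding of the complete graph with `n` vertices contains a knot of bridge
number at least three.
-/

set_option autoImplicit false

namespace Pool.Agent.Results.MP_c07f6b_gt.ThreeBridge

open IBN

/-- There is `n` such that for every diagram `G` of a spatial embedding of the complete graph on `n`
vertices there is a cycle `c` of this graph whose image is a knot of bridge number at least three:
every diagram which is isotopic to the diagram `G.knot c` of this knot has at least three maxima. -/
theorem result : ∃ n : ℕ, ∀ G : Diagram n, ∃ c : List ℕ, IsCycle n c ∧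
    ∀ w : Word, Iso 0 (G.knot c) w → 3 ≤ maxima w :=
  all_Main

end Pool.Agent.Results.MP_c07f6b_gt.ThreeBridge
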